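import Mathlib
import Pool.Agent.MP_67fd2b_co.Final

/-!
Full answer to Q1 of MP_67fd2b_co: the symplectic and the orthogonal content series are both
equal to the inverse of `∏_{j ≥ 1} (1 - x^(4j-2)) (1 - x^j)^t`.
-/

namespace Pool.Agent.Results.MP_67fd2b_co.ContentNO

open Polynomial Pool.Agent.MP_67fd2b_co
open scoped PowerSeries.WithPiTopology

/-- In `ℚ[t][[x]]`, with coefficientwise convergence over the discrete ring `ℚ[t]`, the infinite
product `∏_{j ≥ 1} (1 - x^(4j-2)) (1 - x^j)^t` (indexed by `i = j - 1`) converges to a series `P`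
with `F_sp * P = 1` and `F_O * P = 1`. -/
theorem result [TopologicalSpace ℚ[X]] [DiscreteTopology ℚ[X]] :
    ∃ P : PowerSeries ℚ[X],
      HasProd (fun i : ℕ => (1 - (PowerSeries.X : PowerSeries ℚ[X]) ^ (4 * (i + 1) - 2)) *
        oneSubPow (i + 1)) P ∧
      genSeries cSp * P = 1 ∧ genSeries cO * P = 1 :=
  ⟨Pinf, hasProd_fac, genSeries_mul_Pinf, by rw [genSeries_cO]; exact genSeries_mul_Pinf⟩

end Pool.Agent.Results.MP_67fd2b_co.ContentNO
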